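import Pool.Agent.H61.CMC.TargetsE1
import Pool.Agent.H61.CM4B.AsmB1
import Pool.Agent.H13.CM4B.CT2

/-!
# cm4_modules, row E1_CT3: continuity of the theta functions with an angular factor
-/

set_option autoImplicit false

open MeasureTheory Set Filter NumberField NumberField.InfinitePlace NumberField.Units
  NumberField.Units.dirichletUnitTheorem Pool.Agent.H65.CM4 Pool.Agent.H65.CMC
  Pool.Agent.H25.HK Pool.Agent.H61.CM4 Pool.Agent.H61.CMC
open scoped Real Classical

namespace Pool.Agent.H68.CMC1

theorem pf_CT3 (hANG : T_ANG) (hPQB : T_PQB) : T_CT3 := by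
  intro k _ _ _ m M x y hy
  have htop : ix (⊤ : La k) ≠ 0 :=
    (Pool.Agent.H61.CM4B.c_IXD k).2.2.2.1 ⊤ 1 one_pos (fun u => Submodule.mem_top)
  obtain ⟨C, hC, hq⟩ := hPQB k (wa m)
  obtain ⟨_, ham, _⟩ := hANG k m x y hy
  rw [continuous_iff_continuousAt]
  intro c0
  have hcont : ContinuousOn (th3 m M x y) {c | ∀ v, -(1 + ∑ w, |c0 w|) < c v} := by
    have hs := (Pool.Agent.H61.CM4B.c_THT k ⊤ x y
      (fun _ => -(1 + ∑ w, |c0 w|) - Real.log 2) htop hy).1
    refine continuousOn_tsum (u := fun u : V2 k => C * (if u ∈ (⊤ : La k) then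
      Real.exp (-(2 * π) * qs x y (fun _ => -(1 + ∑ w, |c0 w|) - Real.log 2) u) else 0)) ?_
      (hs.mul_left C) ?_
    · intro u
      refine Continuous.continuousOn ?_
      by_cases hu : u ∈ M
      · simp only [hu, if_true]
        unfold qs pq
        fun_prop
      · simp only [hu, if_false]
        exact continuous_const
    · intro u c hc
      rw [if_pos (Submodule.mem_top)]
      obtain ⟨h1, h2, h3, _⟩ := hq x y c u hy
      obtain ⟨_, _, _, h4⟩ := hq x y (fun _ => -(1 + ∑ w, |c0 w|)) u hy
      have hpi := Real.pi_pos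
      by_cases hu : u ∈ M
      · rw [if_pos hu, norm_mul, Complex.norm_real, Real.norm_eq_abs,
          abs_of_nonneg (mul_nonneg h1 (Real.exp_pos _).le)]
        have h5 : ‖am m x y u‖ * (pq (wa m) x y c u * Real.exp (-(2 * π) * qs x y c u)) ≤
            1 * (C * Real.exp (-π * qs x y c u)) :=
          mul_le_mul (ham u) h3 (mul_nonneg h1 (Real.exp_pos _).le) zero_le_one
        refine h5.trans ?_
        rw [one_mul]
        refine mul_le_mul_of_nonneg_left (Real.exp_le_exp.2 ?_) hC
        have h6 := Pool.Agent.H13.CM4B.qs_mono (x := x)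
          (c := fun _ => -(1 + ∑ w, |c0 w|)) (c' := c) hy (fun v => (hc v).le) u
        rw [h4]
        nlinarith
      · rw [if_neg hu, norm_zero]
        exact mul_nonneg hC (Real.exp_pos _).le
  refine hcont.continuousAt (IsOpen.mem_nhds ?_ ?_)
  · have : {c : Pl k → ℝ | ∀ v, -(1 + ∑ w, |c0 w|) < c v} =
        ⋂ v, {c | -(1 + ∑ w, |c0 w|) < c v} := by
      ext c
      simp
    rw [this]
    exact isOpen_iInter_of_finite fun v => isOpen_lt continuous_const (continuous_apply v)
  · intro v
    have h1 : |c0 v| ≤ ∑ w, |c0 w| :=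
      Finset.single_le_sum (f := fun w => |c0 w|) (fun w _ => abs_nonneg _) (Finset.mem_univ v)
    have h2 := neg_abs_le (c0 v)
    linarith

end Pool.Agent.H68.CMC1
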