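import Pool.Agent.H68.CMC1.ME3a

/-!
# cm4_modules, row E1_ME3: the Mellin transform of the averaged theta function
-/

set_option autoImplicit false

open MeasureTheory Set Filter NumberField NumberField.InfinitePlace NumberField.Units
  NumberField.Units.dirichletUnitTheorem Pool.Agent.H65.CM4 Pool.Agent.H65.CMC
  Pool.Agent.H25.HK Pool.Agent.H61.CM4 Pool.Agent.H61.CMC
open Pool.Agent.H35.CM4B (Ix qr_pos' rv_ne' qp_pos' continuous_qs continuous_yc qs_zero)
open scoped Real ENNReal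

namespace Pool.Agent.H68.CMC1

variable {k : Type} [Field k] [NumberField k] [IsTotallyReal k]

section
open scoped Classical

/-- the constant -/
noncomputable def cc3 (d : Pl k → ℕ) (σ : ℝ) : ℝ :=
  ((2 : ℝ) ^ dg k)⁻¹ * ∏ v : Pl k, (Real.Gamma (σ + d v) * (2 * π) ^ (-(σ + d v)))

omit [IsTotallyReal k] in
theorem cc3_pos (d : Pl k → ℕ) {σ : ℝ} (hσ : 0 < σ) : 0 < cc3 d σ := by
  unfold cc3
  refine mul_pos (by positivity) (Finset.prod_pos fun v _ => ?_)
  have h0 : 0 < σ + d v := by positivity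
  exact mul_pos (Real.Gamma_pos_of_pos h0) (Real.rpow_pos_of_pos (by positivity) _)

/-- (D) -/
theorem lemD3 (hGI : T_GI3) (d : Pl k → ℕ) (x y : Pl k → ℝ) (hy : ∀ v, 0 < y v) (u : V2 k)
    (hu : u ≠ 0) (s : ℂ) (hs : 0 < s.re) :
    AEStronglyMeasurable (fun τ : ℝ => Complex.exp (2 * s * τ) *
      ((∫ z : logSpace k, Hm d x y u τ z : ℝ) : ℂ)) volume ∧
    ∫ τ : ℝ, Complex.exp (2 * s * τ) * ((∫ z : logSpace k, Hm d x y u τ z : ℝ) : ℂ) =
      ((2 : ℂ) ^ dg k)⁻¹ * (∏ v, (Complex.Gamma (s + d v) * (2 * (π : ℂ)) ^ (-(s + d v)))) *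
        ((qp x y u : ℝ) : ℂ) ^ (-s) ∧
    ∫⁻ τ : ℝ, ‖Complex.exp (2 * s * τ) * ((∫ z : logSpace k, Hm d x y u τ z : ℝ) : ℂ)‖ₑ ≤
      ENNReal.ofReal (cc3 d s.re * (qp x y u) ^ (-s.re)) ∧
    ∫⁻ τ : ℝ, ENNReal.ofReal (Real.exp (2 * s.re * τ)) *
      ∫⁻ z : logSpace k, ENNReal.ofReal (Hm d x y u τ z) =
      ENNReal.ofReal (cc3 d s.re * (qp x y u) ^ (-s.re)) := by
  have hq : ∀ v : Pl k, 0 < qr (x v) (y v) (rv v (u.1 : k)) (rv v (u.2 : k)) :=
    fun v => qr_pos' (hy v) (rv_ne' v hu)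
  have hqp := qp_pos' hy hu (x := x)
  have hGI' : ∀ w : ℂ, 0 < w.re → Integrable (fun p : ℝ × logSpace k =>
      ((Hm d x y u p.1 p.2 : ℝ) : ℂ) * Complex.exp (2 * w * p.1)) ∧
      ∫ p : ℝ × logSpace k, ((Hm d x y u p.1 p.2 : ℝ) : ℂ) * Complex.exp (2 * w * p.1) =
      ((2 : ℂ) ^ dg k)⁻¹ * (∏ v, (Complex.Gamma (w + d v) * (2 * (π : ℂ)) ^ (-(w + d v)))) *
        ((qp x y u : ℝ) : ℂ) ^ (-w) := fun w hw => hGI k d _ w hq hw
  obtain ⟨h1, h2⟩ := hGI' s hs
  obtain ⟨h3, h4⟩ := hGI' (s.re : ℂ) (by simpa using hs)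
  set G : ℝ × logSpace k → ℂ := fun p =>
    ((Hm d x y u p.1 p.2 : ℝ) : ℂ) * Complex.exp (2 * s * p.1) with hG
  have hG' : ∀ p : ℝ × logSpace k, G p =
      ((Hm d x y u p.1 p.2 : ℝ) : ℂ) * Complex.exp (2 * s * p.1) := fun p => rfl
  have hin : ∀ τ : ℝ, ∫ z : logSpace k, G (τ, z) =
      Complex.exp (2 * s * τ) * ((∫ z : logSpace k, Hm d x y u τ z : ℝ) : ℂ) := by
    intro τ
    simp only [hG']
    rw [integral_mul_const, mul_comm, integral_complex_ofReal]
  have hGn : ∀ p, ‖G p‖ = Hm d x y u p.1 p.2 * Real.exp (2 * s.re * p.1) := by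
    intro p
    rw [hG', norm_mul, Complex.norm_real, Complex.norm_exp,
      Real.norm_of_nonneg (Hm_nonneg d hy u _ _)]
    congr 2
    simp
  have hval : ∫ p : ℝ × logSpace k, ‖G p‖ = cc3 d s.re * (qp x y u) ^ (-s.re) := by
    have h6 : ∀ p : ℝ × logSpace k, ((Hm d x y u p.1 p.2 : ℝ) : ℂ) *
        Complex.exp (2 * (s.re : ℂ) * p.1) = ((‖G p‖ : ℝ) : ℂ) := by
      intro p
      rw [hGn]
      push_cast
      rfl
    simp only [h6] at h4
    rw [integral_complex_ofReal] at h4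
    have h7 : (((∫ p : ℝ × logSpace k, ‖G p‖ : ℝ) : ℂ)) =
        ((cc3 d s.re * (qp x y u) ^ (-s.re) : ℝ) : ℂ) := by
      rw [h4]
      unfold cc3
      rw [Complex.ofReal_mul, Complex.ofReal_mul, Complex.ofReal_inv, Complex.ofReal_pow,
        Complex.ofReal_prod, Complex.ofReal_cpow hqp.le]
      have h8 : ∀ v : Pl k, (((Real.Gamma (s.re + d v) * (2 * π) ^ (-(s.re + d v)) : ℝ)) : ℂ) =
          Complex.Gamma ((s.re : ℂ) + d v) * (2 * (π : ℂ)) ^ (-((s.re : ℂ) + d v)) := by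
        intro v
        rw [Complex.ofReal_mul, ← Complex.Gamma_ofReal,
          Complex.ofReal_cpow (by positivity : (0 : ℝ) ≤ 2 * π)]
        push_cast
        rfl
      rw [Finset.prod_congr rfl fun v _ => h8 v]
      push_cast
      rfl
    exact_mod_cast h7
  have hlin : ∀ τ : ℝ, ∫⁻ z : logSpace k, ‖G (τ, z)‖ₑ =
      ENNReal.ofReal (Real.exp (2 * s.re * τ)) *
        ∫⁻ z : logSpace k, ENNReal.ofReal (Hm d x y u τ z) := by
    intro τ
    rw [← lintegral_const_mul' _ _ ENNReal.ofReal_ne_top]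
    refine lintegral_congr fun z => ?_
    rw [← ofReal_norm, hGn, mul_comm, ENNReal.ofReal_mul (Real.exp_pos _).le]
  have htot : ∫⁻ τ : ℝ, ∫⁻ z : logSpace k, ‖G (τ, z)‖ₑ =
      ENNReal.ofReal (cc3 d s.re * (qp x y u) ^ (-s.re)) := by
    rw [← hval, ofReal_integral_norm_eq_lintegral_enorm h1, Measure.volume_eq_prod,
      lintegral_prod _ h1.1.enorm]
  refine ⟨?_, ?_, ?_, ?_⟩
  · have h5 := (h1.integral_prod_left).1
    refine h5.congr (ae_of_all _ fun τ => hin τ)
  · rw [← h2, Measure.volume_eq_prod, integral_prod _ h1]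
    refine integral_congr_ae (ae_of_all _ fun τ => (hin τ).symm)
  · rw [← htot]
    refine lintegral_mono fun τ => ?_
    rw [← hin τ]
    exact enorm_integral_le_lintegral_enorm _
  · rw [← htot]
    refine lintegral_congr fun τ => ?_
    rw [hlin τ]

end

open scoped Classical in
theorem pf_ME3 (hANG : T_ANG) (_hPQB : T_PQB) (hTH3 : T_TH3) (hUI3 : T_UI3) (hCT3 : T_CT3)
    (_hDC3 : T_DC3) (_hWP3 : T_WP3) (hGI3 : T_GI3) : T_ME3 := by
  intro k _ _ _ m M x y s hM hy hs
  have hs0 : 0 < s.re := by linarith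
  have hFOR := Pool.Agent.H61.CM4B.c_FOR
  have hF1 := (hFOR k).1
  obtain ⟨hqpos, hSall, -⟩ := Pool.Agent.H61.CM4B.c_ME2 k M x y s hM hy hs
  have hSub : Summable (fun u : Ix M => (qp x y u.1) ^ (-s.re)) := by
    have h1 : (fun u : V2 k => if u ∈ M ∧ u ∈ Fo k then (qp x y u) ^ (-s.re) else 0) =
        Set.indicator {u : V2 k | u ∈ M ∧ u ∈ Fo k} (fun u => (qp x y u) ^ (-s.re)) := by
      funext u
      by_cases h : u ∈ M ∧ u ∈ Fo k
      · rw [if_pos h, Set.indicator_of_mem (s := {u : V2 k | u ∈ M ∧ u ∈ Fo k}) h]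
      · rw [if_neg h, Set.indicator_of_notMem (s := {u : V2 k | u ∈ M ∧ u ∈ Fo k}) h]
    rw [h1, ← summable_subtype_iff_indicator] at hSall
    exact hSall
  have hne : ∀ u : Ix M, u.1 ≠ 0 := fun u => hF1 _ u.2.2
  have hqp : ∀ u : Ix M, 0 < qp x y u.1 := fun u => qp_pos' hy (hne u)
  have hcount : Countable (Ix M) := by
    have h1 := hSub.countable_support
    have h2 : Function.support (fun u : Ix M => (qp x y u.1) ^ (-s.re)) = Set.univ := by
      ext u
      simp only [Function.mem_support, Set.mem_univ, iff_true]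
      exact (Real.rpow_pos_of_pos (hqp u) _).ne'
    rw [h2] at h1
    exact Set.countable_univ_iff.1 h1
  have hB := fun τ => lemB3 hANG hTH3 hFOR hUI3 m M x y hM hy τ
  have hD := fun u : Ix M => lemD3 hGI3 (wa m) x y hy u.1 (hne u) s hs0
  obtain ⟨hFm, ⟨B, hBd⟩, hF0, hFt, -, -, -⟩ := Pool.Agent.H66.HK.fd k
  obtain ⟨_, ham1, _⟩ := hANG k m x y hy
  -- summability
  have hsum : ∑' u : Ix M, ENNReal.ofReal (cc3 (wa m) s.re * (qp x y u.1) ^ (-s.re)) ≠ ∞ :=
    (hSub.mul_left (cc3 (wa m) s.re)).tsum_ofReal_ne_top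
  have hmeas : ∀ u : Ix M, Measurable (fun τ : ℝ => ENNReal.ofReal (Real.exp (2 * s.re * τ)) *
      ∫⁻ z : logSpace k, ENNReal.ofReal (Hm (wa m) x y u.1 τ z)) := by
    intro u
    refine Measurable.mul (by fun_prop) ?_
    exact Measurable.lintegral_prod_right'
      (f := fun p : ℝ × logSpace k => ENNReal.ofReal (Hm (wa m) x y u.1 p.1 p.2))
      (ENNReal.measurable_ofReal.comp (continuous_Hm (wa m) x y u.1).measurable)
  have hae : ∀ᵐ τ : ℝ, ∑' u : Ix M, ∫⁻ z : logSpace k,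
      ENNReal.ofReal (Hm (wa m) x y u.1 τ z) ≠ ∞ := by
    have h1 : ∫⁻ τ : ℝ, ∑' u : Ix M, ENNReal.ofReal (Real.exp (2 * s.re * τ)) *
        ∫⁻ z : logSpace k, ENNReal.ofReal (Hm (wa m) x y u.1 τ z) ≠ ∞ := by
      rw [lintegral_tsum fun u => (hmeas u).aemeasurable, tsum_congr fun u => (hD u).2.2.2]
      exact hsum
    have h2 := ae_lt_top (Measurable.tsum hmeas) h1
    filter_upwards [h2] with τ hτ
    rw [ENNReal.tsum_mul_left] at hτ
    intro h3
    rw [h3, ENNReal.mul_top] at hτ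
    · exact lt_irrefl _ hτ
    · rw [Ne, ENNReal.ofReal_eq_zero, not_le]
      exact Real.exp_pos _
  -- the integral over the fundamental domain
  have hfix : ∀ τ : ℝ, ∑' u : Ix M, ∫⁻ z : logSpace k,
      ENNReal.ofReal (Hm (wa m) x y u.1 τ z) ≠ ∞ →
      f3 m M x y (Real.exp τ) - c3 m = (torsionOrder k : ℂ) * ∑' u : Ix M,
        am m x y u.1 * ((∫ z : logSpace k, Hm (wa m) x y u.1 τ z : ℝ) : ℂ) := by
    intro τ hτ
    obtain ⟨hB1, hB2⟩ := hB τ
    have hcy : Continuous (fun z : logSpace k => yc k τ z) :=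
      continuous_yc.comp (continuous_const.prodMk continuous_id)
    have hct : Continuous (fun z : logSpace k => th3 m M x y (yc k τ z)) :=
      (hCT3 k m M x y hy).comp hcy
    have hsub : Fd k ⊆ Metric.closedBall 0 (max B 0) := by
      intro z hz
      rw [mem_closedBall_zero_iff, pi_norm_le_iff_of_nonneg (le_max_right _ _)]
      intro w
      exact (hBd z hz w).trans (le_max_left _ _)
    have hint : IntegrableOn (fun z => th3 m M x y (yc k τ z)) (Fd k) :=
      (hct.continuousOn.integrableOn_compact (isCompact_closedBall _ _)).mono_set hsub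
    have hint2 : IntegrableOn (fun _ : logSpace k => (if m = 0 then (1 : ℂ) else 0)) (Fd k) :=
      integrableOn_const hFt.ne
    have h1 : f3 m M x y (Real.exp τ) - c3 m =
        ∫ z in Fd k, (th3 m M x y (yc k τ z) - if m = 0 then 1 else 0) := by
      rw [integral_sub hint hint2, setIntegral_const, f3, Real.log_exp]
      congr 1
      unfold c3 vF
      by_cases hm : m = 0
      · rw [if_pos hm, if_pos hm, Complex.real_smul, mul_one]
      · rw [if_neg hm, if_neg hm, smul_zero]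
    have h2 : ∀ z, th3 m M x y (yc k τ z) - (if m = 0 then 1 else 0) =
        ∑' u : Ix M, am m x y u.1 * ((Su (wa m) x y u.1 τ z : ℝ) : ℂ) :=
      fun z => (hB1 z).tsum_eq.symm
    have hfin : ∀ u : Ix M, ∫⁻ z : logSpace k, ENNReal.ofReal (Hm (wa m) x y u.1 τ z) ≠ ∞ :=
      fun u => ENNReal.ne_top_of_tsum_ne_top hτ u
    have h3 : ∀ u : Ix M, ∫ z in Fd k, am m x y u.1 * ((Su (wa m) x y u.1 τ z : ℝ) : ℂ) =
        (torsionOrder k : ℂ) *
          (am m x y u.1 * ((∫ z : logSpace k, Hm (wa m) x y u.1 τ z : ℝ) : ℂ)) := by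
      intro u
      have h4 : ∫ z in Fd k, Su (wa m) x y u.1 τ z =
          (torsionOrder k : ℝ) * ∫ z : logSpace k, Hm (wa m) x y u.1 τ z := by
        rw [integral_eq_lintegral_of_nonneg_ae (ae_of_all _ fun z => (hB2 u).2.1 z)
          (hB2 u).1.aestronglyMeasurable, (hB2 u).2.2, ENNReal.toReal_mul,
          ENNReal.toReal_natCast, integral_eq_lintegral_of_nonneg_ae
            (ae_of_all _ fun z => Hm_nonneg (wa m) hy u.1 τ z)]
        exact ((continuous_Hm (wa m) x y u.1).comp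
          (continuous_const.prodMk continuous_id)).aestronglyMeasurable
      rw [integral_const_mul, integral_complex_ofReal, h4]
      push_cast
      ring
    rw [h1, ← tsum_mul_left]
    calc ∫ z in Fd k, (th3 m M x y (yc k τ z) - if m = 0 then 1 else 0)
        = ∫ z in Fd k, ∑' u : Ix M, am m x y u.1 * ((Su (wa m) x y u.1 τ z : ℝ) : ℂ) := by
          refine integral_congr_ae (ae_of_all _ fun z => h2 z)
      _ = ∑' u : Ix M, ∫ z in Fd k, am m x y u.1 * ((Su (wa m) x y u.1 τ z : ℝ) : ℂ) := by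
          refine integral_tsum (fun u => ?_) ?_
          · exact (measurable_const.mul
              (Complex.measurable_ofReal.comp (hB2 u).1)).aestronglyMeasurable
          · have h5 : ∀ u : Ix M, ∫⁻ z in Fd k,
                ‖am m x y u.1 * ((Su (wa m) x y u.1 τ z : ℝ) : ℂ)‖ₑ ≤
                (torsionOrder k : ℝ≥0∞) *
                  ∫⁻ z : logSpace k, ENNReal.ofReal (Hm (wa m) x y u.1 τ z) := by
              intro u
              rw [← (hB2 u).2.2]
              refine lintegral_mono fun z => ?_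
              rw [← ofReal_norm]
              refine ENNReal.ofReal_le_ofReal ?_
              rw [norm_mul, Complex.norm_real, Real.norm_of_nonneg ((hB2 u).2.1 z)]
              exact mul_le_of_le_one_left ((hB2 u).2.1 z) (ham1 _)
            refine ne_top_of_le_ne_top ?_ (ENNReal.tsum_le_tsum h5)
            rw [ENNReal.tsum_mul_left]
            exact ENNReal.mul_ne_top (ENNReal.natCast_ne_top _) hτ
      _ = _ := tsum_congr h3
  have htor : (torsionOrder k : ℂ) = 2 := by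
    obtain ⟨v⟩ : Nonempty (Pl k) := inferInstance
    rw [Pool.Agent.H29.LD.torsionOrder_eq (rv v)]
    norm_num
  have hts : ∑' u : Ix M, am m x y u.1 * ((qp x y u.1 : ℝ) : ℂ) ^ (-s) = Zd3 m M x y 1 s := by
    have h1 : (fun u : V2 k => if u ∈ M ∧ u ∈ Fo k then
        am m x y u * ((1 * qp x y u : ℝ) : ℂ) ^ (-s) else 0) =
        Set.indicator {u : V2 k | u ∈ M ∧ u ∈ Fo k}
          (fun u => am m x y u * ((qp x y u : ℝ) : ℂ) ^ (-s)) := by
      funext u
      by_cases h : u ∈ M ∧ u ∈ Fo k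
      · rw [if_pos h, Set.indicator_of_mem (s := {u : V2 k | u ∈ M ∧ u ∈ Fo k}) h, one_mul]
      · rw [if_neg h, Set.indicator_of_notMem (s := {u : V2 k | u ∈ M ∧ u ∈ Fo k}) h]
    unfold Zd3
    rw [h1]
    exact tsum_subtype {u : V2 k | u ∈ M ∧ u ∈ Fo k}
      (fun u => am m x y u * ((qp x y u : ℝ) : ℂ) ^ (-s))
  rw [Pool.Agent.H66.HK.mellin_exp]
  calc ∫ τ : ℝ, Complex.exp (2 * s * τ) * (f3 m M x y (Real.exp τ) - c3 m)
      = ∫ τ : ℝ, (torsionOrder k : ℂ) * ∑' u : Ix M, am m x y u.1 * (Complex.exp (2 * s * τ) *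
          ((∫ z : logSpace k, Hm (wa m) x y u.1 τ z : ℝ) : ℂ)) := by
        refine integral_congr_ae ?_
        filter_upwards [hae] with τ hτ
        rw [hfix τ hτ, mul_left_comm, ← tsum_mul_left]
        congr 1
        refine tsum_congr fun u => ?_
        ring
    _ = (torsionOrder k : ℂ) * ∑' u : Ix M, am m x y u.1 * ∫ τ : ℝ, Complex.exp (2 * s * τ) *
          ((∫ z : logSpace k, Hm (wa m) x y u.1 τ z : ℝ) : ℂ) := by
        rw [integral_const_mul, integral_tsum]
        · congr 1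
          refine tsum_congr fun u => ?_
          rw [integral_const_mul]
        · exact fun u => (hD u).1.const_mul _
        · refine ne_top_of_le_ne_top hsum (ENNReal.tsum_le_tsum fun u => ?_)
          refine le_trans ?_ (hD u).2.2.1
          refine lintegral_mono fun τ => ?_
          rw [← ofReal_norm, ← ofReal_norm]
          refine ENNReal.ofReal_le_ofReal ?_
          rw [norm_mul]
          exact mul_le_of_le_one_left (norm_nonneg _) (ham1 _)
    _ = _ := by
        rw [htor, ← hts, ← tsum_mul_left, ← tsum_mul_left]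
        refine tsum_congr fun u => ?_
        rw [(hD u).2.1]
        ring

end Pool.Agent.H68.CMC1
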