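import Pool.Agent.H61.CMC.TargetsE1
import Pool.Agent.H61.CM4B.AsmB1
import Pool.Agent.H35.CM4B.ME2a

/-!
# cm4_modules, row E1_ME3: the Mellin transform of the averaged theta function, lemmas
-/

set_option autoImplicit false

open MeasureTheory Set Filter NumberField NumberField.InfinitePlace NumberField.Units
  NumberField.Units.dirichletUnitTheorem Pool.Agent.H65.CM4 Pool.Agent.H65.CMC
  Pool.Agent.H25.HK Pool.Agent.H61.CM4 Pool.Agent.H61.CMC
open Pool.Agent.H35.CM4B (Ix qr_pos' rv_ne' qp_pos' continuous_qs continuous_yc qs_zero)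
open scoped Real ENNReal

namespace Pool.Agent.H68.CMC1

variable {k : Type} [Field k] [NumberField k] [IsTotallyReal k]

/-- the summand -/
noncomputable def Hm (d : Pl k → ℕ) (x y : Pl k → ℝ) (u : V2 k) (τ : ℝ) (z : logSpace k) : ℝ :=
  pq d x y (yc k τ z) u * Real.exp (-(2 * π) * qs x y (yc k τ z) u)

theorem pq_nonneg (d : Pl k → ℕ) {x y : Pl k → ℝ} (hy : ∀ v, 0 < y v) (c : Pl k → ℝ) (u : V2 k) :
    0 ≤ pq d x y c u := by
  unfold pq
  refine Finset.prod_nonneg fun v _ => pow_nonneg ?_ _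
  refine mul_nonneg (Real.exp_pos _).le ?_
  unfold qr
  have := hy v
  positivity

theorem Hm_nonneg (d : Pl k → ℕ) {x y : Pl k → ℝ} (hy : ∀ v, 0 < y v) (u : V2 k) (τ : ℝ)
    (z : logSpace k) : 0 ≤ Hm d x y u τ z :=
  mul_nonneg (pq_nonneg d hy _ u) (Real.exp_pos _).le

theorem continuous_Hm (d : Pl k → ℕ) (x y : Pl k → ℝ) (u : V2 k) :
    Continuous (fun p : ℝ × logSpace k => Hm d x y u p.1 p.2) := by
  unfold Hm
  have h1 : Continuous (fun c : Pl k → ℝ => pq d x y c u) := by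
    unfold pq
    fun_prop
  exact (h1.comp continuous_yc).mul (Real.continuous_exp.comp
    (continuous_const.mul ((continuous_qs x y u).comp continuous_yc)))

section
open scoped Classical

theorem pq_zero (m : Pl k → ℤ) (x y c : Pl k → ℝ) :
    pq (wa m) x y c (0 : V2 k) = if m = 0 then 1 else 0 := by
  have h0 : ∀ v : Pl k, Real.exp (c v) * qr (x v) (y v) (rv v ((0 : V2 k).1 : k))
      (rv v ((0 : V2 k).2 : k)) = 0 := by
    intro v
    unfold qr
    simp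
  unfold pq
  rw [Finset.prod_congr rfl fun v _ => by rw [h0 v]]
  by_cases hm : m = 0
  · rw [if_pos hm]
    refine Finset.prod_eq_one fun v _ => ?_
    have : wa m v = 0 := by
      unfold wa
      rw [hm]
      rfl
    rw [this, pow_zero]
  · rw [if_neg hm]
    obtain ⟨v, hv⟩ : ∃ v, m v ≠ 0 := by
      by_contra h
      push Not at h
      exact hm (funext h)
    refine Finset.prod_eq_zero (Finset.mem_univ v) (zero_pow ?_)
    unfold wa
    exact Int.natAbs_ne_zero.2 hv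

/-- (A) the theta function minus the constant term -/
theorem lemA3 (hANG : T_ANG) (hTH3 : T_TH3) (hFOR : T_FOR) (m : Pl k → ℤ) (M : La k)
    (x y c : Pl k → ℝ) (hM : ix M ≠ 0) (hy : ∀ v, 0 < y v) :
    Summable (fun p : Ix M × (𝓞 k)ˣ => pq (wa m) x y c (((p.2 : 𝓞 k)) • (p.1 : V2 k)) *
      Real.exp (-(2 * π) * qs x y c (((p.2 : 𝓞 k)) • (p.1 : V2 k)))) ∧
    HasSum (fun p : Ix M × (𝓞 k)ˣ => am m x y (p.1 : V2 k) *
      ((pq (wa m) x y c (((p.2 : 𝓞 k)) • (p.1 : V2 k)) *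
      Real.exp (-(2 * π) * qs x y c (((p.2 : 𝓞 k)) • (p.1 : V2 k))) : ℝ) : ℂ))
      (th3 m M x y c - if m = 0 then 1 else 0) := by
  obtain ⟨_, ham, ham0, hamε, _⟩ := hANG k m x y hy
  have hS := (hTH3 k m M x y c hM hy).1
  have hS' : Summable (fun u : V2 k => if u ∈ M then
      am m x y u * ((pq (wa m) x y c u * Real.exp (-(2 * π) * qs x y c u) : ℝ) : ℂ) else 0) := by
    refine Summable.of_norm_bounded hS fun u => ?_
    by_cases hu : u ∈ M
    · rw [if_pos hu, if_pos hu, norm_mul, Complex.norm_real, Real.norm_of_nonneg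
        (mul_nonneg (pq_nonneg _ hy _ _) (Real.exp_pos _).le)]
      exact mul_le_of_le_one_left (mul_nonneg (pq_nonneg _ hy _ _) (Real.exp_pos _).le) (ham u)
    · rw [if_neg hu, if_neg hu, norm_zero]
  have h1 := hS'.hasSum
  have h2 : HasSum (fun u : V2 k => if u = 0 then (if m = 0 then (1 : ℂ) else 0) else 0)
      (if m = 0 then (1 : ℂ) else 0) := hasSum_ite_eq 0 _
  have h3 := h1.sub h2
  obtain ⟨hF1, hF2, hF3⟩ := hFOR k
  obtain ⟨g, hg⟩ : ∃ g : Ix M × (𝓞 k)ˣ → V2 k, g = fun p => ((p.2 : 𝓞 k)) • (p.1 : V2 k) :=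
    ⟨_, rfl⟩
  have hg' : ∀ p : Ix M × (𝓞 k)ˣ, p.2 • (p.1 : V2 k) = g p := by
    intro p
    rw [hF2, hg]
  have hne : ∀ p : Ix M × (𝓞 k)ˣ, g p ≠ 0 := by
    intro p hp
    rw [← hg' p, smul_eq_zero_iff_eq] at hp
    exact hF1 _ p.1.2.2 hp
  have hgM : ∀ p : Ix M × (𝓞 k)ˣ, g p ∈ M := by
    intro p
    rw [hg]
    exact M.smul_mem _ p.1.2.1
  have hinj : Function.Injective g := by
    intro p q hpq
    have e := (hF3 (g p) (hne p)).unique (y₁ := (p.2, (p.1 : V2 k))) (y₂ := (q.2, (q.1 : V2 k)))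
      ⟨p.1.2.2, hg' p⟩ ⟨q.1.2.2, (hg' q).trans hpq.symm⟩
    have e1 : p.2 = q.2 := congrArg Prod.fst e
    have e2 : (p.1 : V2 k) = q.1 := congrArg Prod.snd e
    exact Prod.ext (Subtype.ext e2) e1
  have h4 : ∀ u : V2 k, u ∉ Set.range g →
      ((if u ∈ M then am m x y u *
        ((pq (wa m) x y c u * Real.exp (-(2 * π) * qs x y c u) : ℝ) : ℂ) else 0) -
        if u = 0 then (if m = 0 then (1 : ℂ) else 0) else 0) = 0 := by
    intro u hu
    by_cases hu0 : u = 0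
    · subst hu0
      rw [if_pos M.zero_mem, if_pos rfl, qs_zero, pq_zero, ham0]
      by_cases hm : m = 0
      · rw [if_pos hm, if_pos hm]; simp
      · rw [if_neg hm, if_neg hm]; simp
    · rw [if_neg hu0]
      have hnM : u ∉ M := by
        intro huM
        apply hu
        obtain ⟨⟨ε, u₀⟩, ⟨h5, h6⟩, -⟩ := hF3 u hu0
        have h6' : ε • u₀ = u := h6
        have h7 : u₀ ∈ M := by
          have h8 : u₀ = ((ε⁻¹ : (𝓞 k)ˣ) : 𝓞 k) • u := by
            rw [← hF2, ← h6', inv_smul_smul]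
          rw [h8]
          exact M.smul_mem _ huM
        exact ⟨(⟨u₀, h7, h5⟩, ε), (hg' (⟨u₀, h7, h5⟩, ε)).symm.trans h6'⟩
      rw [if_neg hnM, sub_zero]
  have h5 := (hinj.hasSum_iff h4).2 h3
  have h6 : (fun p : Ix M × (𝓞 k)ˣ => am m x y (p.1 : V2 k) *
      ((pq (wa m) x y c (((p.2 : 𝓞 k)) • (p.1 : V2 k)) *
      Real.exp (-(2 * π) * qs x y c (((p.2 : 𝓞 k)) • (p.1 : V2 k))) : ℝ) : ℂ)) =
      (fun u : V2 k => (if u ∈ M then am m x y u *
        ((pq (wa m) x y c u * Real.exp (-(2 * π) * qs x y c u) : ℝ) : ℂ) else 0) -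
        if u = 0 then (if m = 0 then (1 : ℂ) else 0) else 0) ∘ g := by
    funext p
    show _ = (if g p ∈ M then am m x y (g p) *
        ((pq (wa m) x y c (g p) * Real.exp (-(2 * π) * qs x y c (g p)) : ℝ) : ℂ) else 0) -
        if g p = 0 then (if m = 0 then (1 : ℂ) else 0) else 0
    have h7 : am m x y (g p) = am m x y (p.1 : V2 k) := by
      rw [hg]
      exact hamε _ _ (Units.ne_zero p.2)
    rw [if_pos (hgM p), if_neg (hne p), sub_zero, h7, hg]
  refine ⟨?_, ?_⟩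
  · have h8 := hS.comp_injective hinj
    refine h8.congr fun p => ?_
    show (if g p ∈ M then _ else _) = _
    rw [if_pos (hgM p), hg]
  · rw [h6]
    exact h5

/-- the sum over the units -/
noncomputable def Su (d : Pl k → ℕ) (x y : Pl k → ℝ) (u : V2 k) (τ : ℝ) (z : logSpace k) : ℝ :=
  ∑' ε : (𝓞 k)ˣ, Hm d x y ((ε : 𝓞 k) • u) τ z

/-- (B) the sum over the units for fixed `τ` -/
theorem lemB3 (hANG : T_ANG) (hTH3 : T_TH3) (hFOR : T_FOR) (hUI3 : T_UI3)
    (m : Pl k → ℤ) (M : La k) (x y : Pl k → ℝ) (hM : ix M ≠ 0) (hy : ∀ v, 0 < y v) (τ : ℝ) :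
    (∀ z, HasSum (fun u : Ix M => am m x y u.1 * ((Su (wa m) x y u.1 τ z : ℝ) : ℂ))
      (th3 m M x y (yc k τ z) - if m = 0 then 1 else 0)) ∧
    ∀ u : Ix M, Measurable (fun z => Su (wa m) x y u.1 τ z) ∧ (∀ z, 0 ≤ Su (wa m) x y u.1 τ z) ∧
      ∫⁻ z in Fd k, ENNReal.ofReal (Su (wa m) x y u.1 τ z) =
        (torsionOrder k : ℝ≥0∞) * ∫⁻ z : logSpace k, ENNReal.ofReal (Hm (wa m) x y u.1 τ z) := by
  obtain ⟨hFm, ⟨B, hB⟩, hF0, hFt, hFl, -, -⟩ := Pool.Agent.H66.HK.fd k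
  have hA1 : ∀ z, Summable (fun p : Ix M × (𝓞 k)ˣ =>
      Hm (wa m) x y ((p.2 : 𝓞 k) • (p.1 : V2 k)) τ z) :=
    fun z => (lemA3 hANG hTH3 hFOR m M x y (yc k τ z) hM hy).1
  have hA2 : ∀ z, HasSum (fun p : Ix M × (𝓞 k)ˣ => am m x y (p.1 : V2 k) *
      ((Hm (wa m) x y ((p.2 : 𝓞 k) • (p.1 : V2 k)) τ z : ℝ) : ℂ))
      (th3 m M x y (yc k τ z) - if m = 0 then 1 else 0) :=
    fun z => (lemA3 hANG hTH3 hFOR m M x y (yc k τ z) hM hy).2
  have hsu : ∀ z (u : Ix M), Summable fun ε : (𝓞 k)ˣ =>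
      Hm (wa m) x y ((ε : 𝓞 k) • (u : V2 k)) τ z := fun z u => (hA1 z).prod_factor u
  refine ⟨fun z => ?_, fun u => ?_⟩
  · have h3 : ∀ u : Ix M, HasSum (fun ε : (𝓞 k)ˣ => am m x y (u : V2 k) *
        ((Hm (wa m) x y ((ε : 𝓞 k) • (u : V2 k)) τ z : ℝ) : ℂ))
        (am m x y (u : V2 k) * ((Su (wa m) x y (u : V2 k) τ z : ℝ) : ℂ)) := by
      intro u
      have h1 : HasSum (fun ε : (𝓞 k)ˣ => Hm (wa m) x y ((ε : 𝓞 k) • (u : V2 k)) τ z)
          (Su (wa m) x y (u : V2 k) τ z) := (hsu z u).hasSum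
      have h2 : HasSum (fun ε : (𝓞 k)ˣ => ((Hm (wa m) x y ((ε : 𝓞 k) • (u : V2 k)) τ z : ℝ) : ℂ))
          ((Su (wa m) x y (u : V2 k) τ z : ℝ) : ℂ) := Complex.hasSum_ofReal.2 h1
      exact h2.mul_left (am m x y (u : V2 k))
    exact (hA2 z).prod_fiberwise h3
  · have hH : ∀ z, ENNReal.ofReal (Su (wa m) x y u.1 τ z) =
        (torsionOrder k : ℝ≥0∞) * ∑' l : unitLattice k,
          ENNReal.ofReal (Hm (wa m) x y u.1 τ (z + l)) := by
      intro z
      rw [Su, ENNReal.ofReal_tsum_of_nonneg (fun _ => Hm_nonneg _ hy _ _ _) (hsu z u)]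
      rw [← Pool.Agent.H41.HK.un k (fun l => ENNReal.ofReal (Hm (wa m) x y u.1 τ (z + l)))]
      refine tsum_congr fun ε => ?_
      have h3 := (hUI3 k m x y τ z ε hy).1 u.1
      have h4 := (Pool.Agent.H61.CM4B.c_UI2 k x y τ z ε).1
      rw [Hm, Hm, h3, h4]
    have hcH : Continuous (fun z : logSpace k => Hm (wa m) x y u.1 τ z) :=
      (continuous_Hm (wa m) x y u.1).comp (continuous_const.prodMk continuous_id)
    have hnn : ∀ z, 0 ≤ Su (wa m) x y u.1 τ z := fun z =>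
      tsum_nonneg fun _ => Hm_nonneg _ hy _ _ _
    have hmz : Measurable fun z : logSpace k => (torsionOrder k : ℝ≥0∞) *
        ∑' l : unitLattice k, ENNReal.ofReal (Hm (wa m) x y u.1 τ (z + l)) := by
      refine Measurable.const_mul (Measurable.tsum fun l => ?_) _
      exact ENNReal.measurable_ofReal.comp
        (hcH.comp (continuous_id.add continuous_const)).measurable
    refine ⟨?_, hnn, ?_⟩
    · have h5 : (fun z => Su (wa m) x y u.1 τ z) = fun z => ((torsionOrder k : ℝ≥0∞) *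
          ∑' l : unitLattice k, ENNReal.ofReal (Hm (wa m) x y u.1 τ (z + l))).toReal := by
        funext z
        rw [← hH z, ENNReal.toReal_ofReal (hnn z)]
      rw [h5]
      exact hmz.ennreal_toReal
    · calc ∫⁻ z in Fd k, ENNReal.ofReal (Su (wa m) x y u.1 τ z)
          = ∫⁻ z in Fd k, (torsionOrder k : ℝ≥0∞) * ∑' l : unitLattice k,
            ENNReal.ofReal (Hm (wa m) x y u.1 τ (z + l)) := lintegral_congr fun z => hH z
        _ = _ := by
          rw [lintegral_const_mul' _ _ (ENNReal.natCast_ne_top _)]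
          rw [hFl (fun z => ENNReal.ofReal (Hm (wa m) x y u.1 τ z))
            (ENNReal.measurable_ofReal.comp hcH.measurable)]

end

end Pool.Agent.H68.CMC1
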